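import Pool.Agent.helper96.LK.SpecM

/-! Module lk:BI of project lk (MP_940ffa_an): the two identities for the series `bs`. -/

set_option autoImplicit false

open PowerSeries Filter

noncomputable section

namespace Pool.Agent.LK

open Pool.Agent.helper59.LC Pool.Agent.helper59.LD

section

variable {A : Type} [CommRing A]

/-- `D = X d/dX` -/
def BI_D (f : A⟦X⟧) : A⟦X⟧ := X * derivative A f

theorem BI_D_mul (f g : A⟦X⟧) : BI_D (f * g) = BI_D f * g + f * BI_D g := by
  rw [BI_D, BI_D, BI_D, Derivation.leibniz, smul_eq_mul, smul_eq_mul]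
  ring

theorem BI_D_coeff (f : A⟦X⟧) (j : ℕ) :
    coeff (j + 1) (BI_D f) = ((j : A) + 1) * coeff (j + 1) f := by
  rw [BI_D, mul_comm X, coeff_succ_mul_X, coeff_derivative]
  ring

variable [Algebra ℚ A]

/-- the coefficient `(1 - e)/2` as a series -/
def BI_c (e : A) : A⟦X⟧ := C (qc A (1 / 2) - qc A (1 / 2) * e)

theorem BI_half (e : A) : 1 - 2 * (qc A (1 / 2) - qc A (1 / 2) * e) = e := by
  have h : (2 : A) * qc A (1 / 2) = 1 := by
    have := qc_inv (A := A) (n := 2) (by norm_num)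
    rw [one_div]
    exact_mod_cast this
  linear_combination (e - 1) * h

theorem BI_c_eq (e : A) : 1 - 2 * BI_c e = C e := by
  have h := congrArg (C (R := A)) (BI_half e)
  rw [map_sub, map_mul, map_one] at h
  rw [BI_c]
  have h2 : (C (2 : A) : A⟦X⟧) = 2 := by
    rw [map_ofNat]
  rw [h2] at h
  exact h

theorem BI_gq (e : A) (q : A⟦X⟧) :
    Polynomial.aeval q (gq e) = 1 + BI_c e + BI_c e * q := by
  have h32 : qc A (3 / 2) = 1 + qc A (1 / 2) := by
    rw [← qc_one, ← qc_add]
    norm_num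
  rw [gq, map_add, map_mul, Polynomial.aeval_C, Polynomial.aeval_C, Polynomial.aeval_X]
  have e1 : ∀ a : A, algebraMap A A⟦X⟧ a = C a := fun a => rfl
  rw [e1, e1, h32, BI_c]
  have e2 : (1 + qc A (1 / 2) - qc A (1 / 2) * e) = 1 + (qc A (1 / 2) - qc A (1 / 2) * e) := by
    ring
  rw [e2, map_add, map_one]

/-- `X q' = (1 + q) (q + c q²)` -/
theorem BI_psi (e : A) : BI_D (psi (gq e)) =
    (1 + psi (gq e)) * (psi (gq e) + BI_c e * psi (gq e) ^ 2) := by
  have h := (isPsi_psi (gq e)).2.2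
  rw [aeval_FF, BI_gq] at h
  rw [BI_D, h]
  ring

omit [Algebra ℚ A] in
theorem BI_D_one_add (f : A⟦X⟧) : BI_D (1 + f) = BI_D f := by
  rw [BI_D, BI_D, map_add, Derivation.map_one_eq_zero, zero_add]

theorem BI_dlog {m : ℕ} {e : A} (r : Rt m e) (k : ℤ) :
    (m : A⟦X⟧) * BI_D (r.z k) =
      (k : A⟦X⟧) * r.z k * (psi (gq e) + BI_c e * psi (gq e) ^ 2) := by
  have hinv : ∀ l : ℤ, r.z l * r.z (-l) = 1 := by
    intro l
    rw [← r.add, add_neg_cancel, r.zero]
  let d : ℤ →+ A⟦X⟧ := AddMonoidHom.mk' (fun k => BI_D (r.z k) * r.z (-k)) (by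
    intro k l
    rw [r.add, BI_D_mul, neg_add, r.add]
    linear_combination BI_D (r.z k) * r.z (-k) * hinv l + BI_D (r.z l) * r.z (-l) * hinv k)
  have hd : ∀ l : ℤ, d l = BI_D (r.z l) * r.z (-l) := fun l => rfl
  have hdk : ∀ l : ℤ, d l = (l : A⟦X⟧) * d 1 := by
    intro l
    have h := map_zsmul d l 1
    rw [smul_eq_mul, mul_one, zsmul_eq_mul] at h
    exact h
  have hm := hdk m
  rw [hd (m : ℤ), r.top, BI_D_one_add, BI_psi] at hm
  have hm2 := hinv m
  rw [r.top] at hm2
  have hk := hdk k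
  rw [hd k] at hk
  push_cast at hm
  linear_combination (-(m : A⟦X⟧) * BI_D (r.z k)) * hinv k + (m : A⟦X⟧) * r.z k * hk -
    (k : A⟦X⟧) * r.z k * hm +
    (k : A⟦X⟧) * r.z k * (psi (gq e) + BI_c e * psi (gq e) ^ 2) * hm2

/-- `D (1/q') = (1/q') (1 - F'(q))` -/
theorem BI_rec (e : A) : BI_D (rec' (psi (gq e))) =
    -(rec' (psi (gq e)) * (2 * (1 + BI_c e) * psi (gq e) + 3 * BI_c e * psi (gq e) ^ 2)) := by
  set q := psi (gq e) with hq
  set c := BI_c e with hc
  have h1 : derivative A q * rec' q = 1 := (isPsi_psi (gq e)).mul_rec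
  have hc0 : derivative A c = 0 := by
    rw [hc, BI_c]
    exact derivative_C
  have h2 : X * derivative A q = (1 + q) * (q + c * q ^ 2) := BI_psi e
  have h3 : derivative A q + X * derivative A (derivative A q) =
      (1 + 2 * (1 + c) * q + 3 * c * q ^ 2) * derivative A q := by
    have h4 := congrArg (derivative A) h2
    have h5 : (1 + q) * (q + c * q ^ 2) = q + (1 + c) * (q * q) + c * (q * (q * q)) := by ring
    rw [h5, map_add, map_add, Derivation.leibniz, Derivation.leibniz, Derivation.leibniz,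
      Derivation.leibniz, Derivation.leibniz, Derivation.leibniz, map_add, hc0,
      Derivation.map_one_eq_zero, derivative_X] at h4
    simp only [smul_eq_mul] at h4
    linear_combination h4
  have h6 : BI_D (derivative A q) * rec' q + derivative A q * BI_D (rec' q) = 0 := by
    rw [← BI_D_mul, h1, BI_D, Derivation.map_one_eq_zero, mul_zero]
  rw [BI_D] at h6
  linear_combination rec' q * h6 - rec' q ^ 2 * h3 +
    (-BI_D (rec' q) - rec' q * (2 * (1 + c) * q + 3 * c * q ^ 2)) * h1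

end

theorem BI : BI_stmt := by
  intro A _ _ m e r hm k j
  set q := psi (gq e) with hq
  set c := BI_c e with hc
  set R := rec' q with hR
  have hbs : ∀ l : ℤ, bs r l = r.z (l + m) * R := fun l => rfl
  -- `m D (bs k)`
  have hD : (m : A⟦X⟧) * BI_D (bs r k) = bs r k * (((k : A⟦X⟧) + m) * (q + c * q ^ 2) -
      m * (2 * (1 + c) * q + 3 * c * q ^ 2)) := by
    have h1 := BI_dlog r (k + m)
    have h2 := BI_rec e
    rw [hbs, BI_D_mul]
    push_cast at h1
    linear_combination R * h1 + (m : A⟦X⟧) * r.z (k + m) * h2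
  -- `X z_k`
  have hX : X * r.z k = (q + c * q ^ 2) * bs r k := by
    have h1 : derivative A q * R = 1 := (isPsi_psi (gq e)).mul_rec
    have h2 : X * derivative A q = (1 + q) * (q + c * q ^ 2) := BI_psi e
    have h3 : r.z (k + m) = r.z k * (1 + q) := by rw [r.add, r.top]
    rw [hbs, h3]
    linear_combination (-(X : A⟦X⟧) * r.z k) * h1 + r.z k * R * h2
  have hb1 : bs r (k + m) = (1 + q) * bs r k := by
    rw [hbs, hbs, show k + m + m = (m : ℤ) + (k + m) by ring, r.add, r.top]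
    ring
  have hb2 : bs r (k + 2 * m) = (1 + q) ^ 2 * bs r k := by
    rw [hbs, hbs, show k + 2 * m + m = (m : ℤ) + ((m : ℤ) + (k + m)) by ring, r.add, r.add,
      r.top]
    ring
  have hce : 1 - 2 * c = C e := BI_c_eq e
  have key1 : ((2 * m - k : ℤ) : A⟦X⟧) * (X * r.z k) + (m : A⟦X⟧) * BI_D (bs r k) =
      C e * (m : A⟦X⟧) * (bs r (k + m) - bs r k) := by
    push_cast
    rw [hD, hX, hb1, ← hce]
    ring
  have key2 : ((m - k : ℤ) : A⟦X⟧) * (X * r.z k) + (m : A⟦X⟧) * BI_D (bs r k) =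
      -((m : A⟦X⟧) * c * (bs r (k + 2 * m) - bs r k)) := by
    push_cast
    rw [hD, hX, hb2]
    ring
  have hint : ∀ (z : ℤ) (f : A⟦X⟧) (n : ℕ), coeff n ((z : A⟦X⟧) * f) = (z : A) * coeff n f := by
    intro z f n
    rw [← map_intCast (C (R := A)) z, coeff_C_mul]
  have hnat : ∀ (z : ℕ) (f : A⟦X⟧) (n : ℕ), coeff n ((z : A⟦X⟧) * f) = (z : A) * coeff n f := by
    intro z f n
    rw [← map_natCast (C (R := A)) z, coeff_C_mul]
  have hXc : ∀ f : A⟦X⟧, coeff (j + 1) (X * f) = coeff j f := by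
    intro f
    rw [mul_comm X, coeff_succ_mul_X]
  constructor
  · have h := congrArg (coeff (j + 1)) key1
    rw [map_add, hint, hXc, hnat, BI_D_coeff, mul_assoc, coeff_C_mul, hnat, map_sub] at h
    linear_combination h
  · have h := congrArg (coeff (j + 1)) key2
    rw [map_add, hint, hXc, hnat, BI_D_coeff, map_neg, mul_assoc, hnat, hc, BI_c, coeff_C_mul,
      map_sub] at h
    linear_combination h

end Pool.Agent.LK
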